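import Mathlib
import Pool.Agent.Zk94.BM.Dat

/-!
# The Brauer-Manin set of the twists of a curve of genus two by primes

For a squarefree integer `D` let `C_D` be the curve of genus `2` with the equation

  `D y² = u (u² - 1) (u² - 9)`.

It has the six rational Weierstrass points with `u = 0, 1, -1, 3, -3, ∞`.  Let `p` be a prime number and

* `D = p`, if `p ≡ 5` or `11` modulo `24` and `p ≠ 5`,
* `D = 2 p`, if `p ≡ 7` or `19` modulo `24`.

So half of all prime numbers occur.  With `x = 30 / (u + 2)` the equation of `C_D` becomes
`d z² = ∏ k, (x - b k)`, where `b = (0, 6, 10, 15, 30, -30)` and `d = 30 p` for `D = p`, `d = 15 p` for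
`D = 2 p` (so `30 d / D` is a rational square).  Let `F k = x - b k w`.  We prove, without any unproved
hypothesis and with no exceptional primes:

**Let `P` be an adelic point of `C_D` which is orthogonal to the quaternion classes `(F k * F l, e)`, `e` a
nonzero integer, of the Brauer group of `C_D`, for instance a point of the Brauer-Manin set.  Then there
is ONE rational Weierstrass point `Q` such that at ALL places `v` the component `P_v` has the same classes
as `Q`: `F k (P_v) F l (P_v)` and `F k (Q) F l (Q)` differ by a square of `ℚ_v`.**

In other words the images of `P_v - Q` in `J(ℚ_v) / 2 J(ℚ_v)`, `J` the Jacobian of `C_D`, vanish for all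
`v`.  In the proof one sees that the everywhere locally soluble two-coverings of `C_D` are those of the
Weierstrass points (`Pool.Agent.Zk94.BM.sel_main`).  The two-coverings of `J` are not considered.

The starting library (`BrauerManinMixedFactors` and `TwistsNearBranchPoint`) has results on almost all
twists of quite general curves, but with sets of exceptions which are not explicit, and no result on any
single curve.

Proof.  By the exactness theorem for the Hilbert symbols over `ℚ` (helper313, `selM` of helper488)
the classes of `P` are given by integers `n k`, and the covering `F k = n k y_k²` has points at all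
places.  At the primes `q ≠ 2, 3, 5, p` the classes are unramified.  At `5` the six branch points are, in
the coordinate `u`, all the points of `ℙ¹(𝔽₅)`: so every point of `C_D` over `ℚ₅` is near a Weierstrass
point, and the classes are unramified there, too.  At the prime `p` there is an index `i` such that
`n k n l (b i - b k) (b i - b l)` is a square in `ℚ_p` for `k, l ≠ i`.  So this class is in the subgroup
of order `4` of the squares modulo `p` in `⟨-1, 2, 3⟩ ≅ ℚ₂ˣ / ℚ₂ˣ²`.  The point at `2` gives
`x₀ ∈ ℙ¹(ℚ₂)` with `n k n l = (x₀ - b k) (x₀ - b l)` in `ℚ₂ˣ / ℚ₂ˣ²` and `d ∏ (x₀ - b k)` a square, and a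
computation with the residue classes modulo `256` shows that then the classes are trivial.
-/

set_option autoImplicit false

namespace Pool.Agent.Results.MP_308fa9_nt.BrauerManinPrimeTwists

open Finset Polynomial Pool.Agent.W313.BMX

/-- the branch points -/
def b : Fin 6 → ℤ := ![0, 6, 10, 15, 30, -30]

/-- The linear factors `x - b k`, with the homogenisations `x - b k w`. -/
noncomputable def f (k : Fin 6) : ℤ[X] := X - C (b k)

/-- The twist with the equation `d y² = ∏ k, (x - b k)` is one of the curves of the theorem. -/
def Twist (d : ℤ) : Prop := ∃ p : ℕ, p.Prime ∧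
  ((d = 30 * p ∧ (p % 24 = 5 ∨ p % 24 = 11) ∧ p ≠ 5) ∨ (d = 15 * p ∧ (p % 24 = 7 ∨ p % 24 = 19)))

/-- The family of the values of `F k * F l` at the components of an adelic point. -/
noncomputable def values2 {d : ℤ} (P : AdelicPoint f d) (k l : Fin 6) : Fam :=
  ⟨value P.re k * value P.re l, fun q => value (P.pa q) k * value (P.pa q) l⟩

/-- The adelic point is orthogonal to the classes `(F k * F l, e)`: the number of the places at which
the Hilbert symbol is not trivial is even, so that the sum of the invariants is zero. -/
def Orthogonal {d : ℤ} (P : AdelicPoint f d) : Prop :=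
  ∀ e : ℤ, e ≠ 0 → ∀ k l, k ≠ l → Even (ram (values2 P k l) e).ncard

/-- The adelic point `P` and the rational point `Q` have the same classes at all places. -/
def SameClasses {d : ℤ} (P : AdelicPoint f d) (Q : Point f d ℚ) : Prop :=
  ∀ k l, IsSquare (value P.re k * value P.re l * ((value Q k * value Q l : ℚ) : ℝ)) ∧
    ∀ q : Nat.Primes,
      IsSquare (value (P.pa q) k * value (P.pa q) l * ((value Q k * value Q l : ℚ) : ℚ_[(q : ℕ)]))

/-- **Twists by primes: adelic points which are orthogonal to the quaternion classes.** -/
theorem result (d : ℤ) (hd : Twist d) (P : AdelicPoint f d) (hP : Orthogonal P) :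
    ∃ Q : Point f d ℚ, Q.y = 0 ∧ SameClasses P Q := by
  have hD : Pool.Agent.Zk94.BM.Data d := by
    obtain ⟨p, hp, ⟨rfl, h, h5⟩ | ⟨rfl, h⟩⟩ := hd
    · exact Pool.Agent.Zk94.BM.data30 hp h h5
    · exact Pool.Agent.Zk94.BM.data15 hp h
  exact Pool.Agent.Zk94.BM.bm_main hD P hP

end Pool.Agent.Results.MP_308fa9_nt.BrauerManinPrimeTwists
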