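import Pool.Agent.Results.MP_308fa9_nt.BrauerManinMixedFactors
import Pool.Agent.Results.MP_ab3ecb_nt.TwistsNearBranchPoint
import Pool.Agent.Results.MP_ab3ecb_nt.SuperellipticTwists
import Pool.Agent.Results.MP_ab3ecb_nt.TwistsNearPowers
import Pool.Agent.R482.ST.Mills
import Mathlib.Algebra.Polynomial.Cardinal

/-!
# Brauer-Manin sets of all superelliptic twists with `d` near `α ^ (3 ^ n)`, factors of any degrees

Let `v_n ≥ 1` be reals and let `L_n ≥ 1` be such that the sums of `L_n v_n ^ (-t)` converge for all `t > 0` (`v_n = 3 ^ n`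
and `L_n = n ^ A`). For almost every `α > 1` and ALL finite families `f` of integral polynomials which are irreducible over
`ℚ`, pairwise non-associated, of even total degree, at least four of them of odd degree, with a condition on the linear ones,
for all but finitely many `n`, for ALL integers `d ≠ 0` with `||d| - α ^ (v_n)| ≤ L_n` and ALL even `m`: every adelic point of
the curve `d y ^ m = ∏ k, F k (x, w)` which is orthogonal to the classes `(F k, e)`, `(F k F l, e)` has at all places the type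
of one and the same rational branch point, and reduces to it modulo the large primes which divide `d` to an odd power. If
there are no linear factors, then no adelic point is orthogonal: the Brauer-Manin set of the curve is empty.
-/

set_option autoImplicit false

namespace Pool.Agent.Results.MP_308fa9_nt.MixedFactorsNearPowers

open MeasureTheory Filter Topology Polynomial
open Pool.Agent.W313.BMX hiding Orthogonal
open BrauerManinMixedFactors (Factors ex values2 Orthogonal)
open Pool.Agent.Results.MP_ab3ecb_nt.TwistsNearBranchPoint (General TypeOf val)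
open Pool.Agent.Results.MP_ab3ecb_nt.SuperellipticTwists (CoverPoint AdelicCoverPoint)

section K

variable {K : Type} [Fintype K] [DecidableEq K]

/-- the image of an adelic point of `d y ^ m = ∏ F k (x, w)`, `m` even, on `d y ^ 2 = ∏ F k (x, w)` -/
noncomputable def image {f : K → ℤ[X]} {d : ℤ} {m : ℕ} (hm : Even m) (P : AdelicCoverPoint f d m) : AdelicPoint f d :=
  ⟨P.re.image hm, fun p => (P.pa p).image hm⟩

/-- The `p`-adic component of the adelic point reduces modulo `p` to the zero of the linear form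
`F i`, for all primes `p > z` which divide `d` exactly to an odd power. -/
def ReducesTo {f : K → ℤ[X]} {d : ℤ} (z : ℕ) (P : AdelicPoint f d) (i : K) : Prop :=
  ∀ p : Nat.Primes, z < (p : ℕ) → Odd (padicValInt (p : ℕ) d) →
    ‖homog (f i) (P.pa p).x (P.pa p).w‖ < max ‖(P.pa p).x‖ ‖(P.pa p).w‖

/-- a point of the curve for `s m²` gives a point of the curve for `s` -/
def down {f : K → ℤ[X]} {s m : ℤ} {F : Type} [Field F] (P : Point f (s * m ^ 2) F) : Point f s F :=
  ⟨P.x, P.w, (m : F) * P.y, P.ne, by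
    rw [← P.eq]
    push_cast
    ring⟩

lemma value_down {f : K → ℤ[X]} {s m : ℤ} {F : Type} [Field F] (hm : (m : F) ≠ 0)
    (P : Point f (s * m ^ 2) F) (k : K) : ∃ u : F, u ≠ 0 ∧ value P k = value (down P) k * u ^ 2 := by
  by_cases h : homog (f k) P.x P.w ≠ 0
  · refine ⟨1, one_ne_zero, ?_⟩
    have h' : homog (f k) (down P).x (down P).w ≠ 0 := h
    unfold value
    rw [if_pos h, if_pos h']
    change homog (f k) P.x P.w = homog (f k) P.x P.w * 1 ^ 2
    ring
  · refine ⟨m, hm, ?_⟩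
    have h' : ¬ homog (f k) (down P).x (down P).w ≠ 0 := h
    unfold value
    rw [if_neg h, if_neg h']
    change ((s * m ^ 2 : ℤ) : F) * ∏ l ∈ Finset.univ.erase k, homog (f l) P.x P.w =
      ((s : F) * ∏ l ∈ Finset.univ.erase k, homog (f l) P.x P.w) * (m : F) ^ 2
    push_cast
    ring

lemma isSquare_down {f : K → ℤ[X]} {s m : ℤ} {F : Type} [Field F] (hm : (m : F) ≠ 0)
    (P : Point f (s * m ^ 2) F) (c : K → F) (T : Finset K) (h : IsSquare (∏ k ∈ T, (value P k * c k))) :
    IsSquare (∏ k ∈ T, (value (down P) k * c k)) := by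
  choose u hu0 hu using fun k => value_down hm P k
  obtain ⟨r, hr⟩ := h
  have hU : (∏ k ∈ T, u k) ≠ 0 := Finset.prod_ne_zero_iff.2 fun k _ => hu0 k
  refine ⟨r / ∏ k ∈ T, u k, ?_⟩
  have h1 : (∏ k ∈ T, (value P k * c k)) = (∏ k ∈ T, (value (down P) k * c k)) * (∏ k ∈ T, u k) ^ 2 := by
    rw [← Finset.prod_pow, ← Finset.prod_mul_distrib]
    refine Finset.prod_congr rfl fun k _ => ?_
    rw [hu k]
    ring
  rw [h1] at hr
  field_simp
  linear_combination hr

/-- the conditions are those of part Y488.TM -/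
lemma hyp_of {f : K → ℤ[X]} (hF : Factors f) (hG : General f) : Pool.Agent.Y488.TM.Hyp f :=
  ⟨hF.1, hF.2.1, hF.2.2.1, hF.2.2.2, hG.1, hG.2⟩

/-- the orthogonal adelic points of a curve have one type if its squarefree part is not exceptional -/
lemma typeOf_of {f : K → ℤ[X]} (hf : Pool.Agent.Y488.TM.Hyp f) {s m : ℤ} (hm : m ≠ 0)
    (hs : s ≠ 0)
    (hbad : ¬ ∃ δ : K → ℤ, (∀ k, δ k ≠ 0) ∧ IsSquare (s * ∏ k, δ k) ∧
      (∀ (p : ℕ) [Fact p.Prime], Pool.Agent.W262.TW.HasPt f δ ℚ_[p]) ∧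
      ¬ Pool.Agent.Y488.TM.ConstC f δ) (P : AdelicPoint f (s * m ^ 2)) (hP : Orthogonal P) :
    ∃ i, (f i).natDegree = 1 ∧ TypeOf P i := by
  have hodd : ∃ k, Odd (f k).natDegree := by
    have h3 : 0 < (Pool.Agent.Y488.TM.Od f).card := by have := hf.four; omega
    obtain ⟨k, hk⟩ := Finset.card_pos.1 h3
    unfold Pool.Agent.Y488.TM.Od at hk
    exact ⟨k, (Finset.mem_filter.1 hk).2⟩
  obtain ⟨n, hn0, hn1, -, hn2, hn3⟩ := Pool.Agent.Y488.TM.selM Pool.Agent.Y488.TM.finb f hf.irr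
    hf.ass hf.even hodd (s * m ^ 2) (mul_ne_zero hs (pow_ne_zero 2 hm)) P hP
  by_contra hno
  push Not at hno
  apply hbad
  refine ⟨n, hn0, ?_, fun p _ => hn2 p, ?_⟩
  · refine Pool.Agent.Results.MP_ab3ecb_nt.TwistsNearPowers.isSquare_of_mul_sq hm ?_
    rw [show s * m ^ 2 * ∏ k, n k = s * (∏ k, n k) * m ^ 2 by ring] at hn1
    exact hn1
  · rintro ⟨i, hi, hc⟩
    apply hno i hi
    intro T hT hev
    obtain ⟨r, hr⟩ := hc T hT hev
    refine ⟨Pool.Agent.Y488.TM.combine (n := fun k => (n k : ℝ))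
      (fun k => by exact_mod_cast hn0 k) (hn3 T hev).1 ⟨r, ?_⟩,
      fun p => Pool.Agent.Y488.TM.combine (n := fun k => (n k : ℚ_[(p : ℕ)]))
        (fun k => by exact_mod_cast hn0 k) ((hn3 T hev).2 p) ⟨r, ?_⟩⟩
    · exact_mod_cast congrArg (fun q : ℤ => (q : ℝ)) hr
    · exact_mod_cast congrArg (fun q : ℤ => (q : ℚ_[(p : ℕ)])) hr

/-- the number of the places at which a class is not trivial is finite -/
lemma ram_fin (a : Fam) (e : ℤ) (he : e ≠ 0) (z : ℕ)
    (h : ∀ p : Nat.Primes, z < (p : ℕ) → ∃ (m : ℤ) (c : ℚ_[(p : ℕ)]), ¬ ((p : ℕ) : ℤ) ∣ m ∧ c ≠ 0 ∧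
      a.pa p = m * c ^ 2) : (ram a e).Finite := by
  have h1 : {p : Nat.Primes | (p : ℕ) ≤ max z (max 2 e.natAbs)}.Finite := by
    have h2 : (Set.Iic (max z (max 2 e.natAbs))).Finite := Set.finite_Iic _
    exact h2.preimage (Subtype.val_injective.injOn)
  apply ((h1.image some).insert none).subset
  intro v hv
  match v with
  | none => exact Or.inl rfl
  | some p =>
    refine Or.inr ⟨p, ?_, rfl⟩
    by_contra hpz
    have hpz' : max z (max 2 e.natAbs) < (p : ℕ) := not_le.1 hpz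
    obtain ⟨m, c, hm, hc, hmc⟩ := h p (by omega)
    apply hv
    rw [hmc, splits_mul_sq hc]
    refine Pool.Agent.W335.BMX.odd2 _ (by omega) m e hm ?_
    intro h
    have h3 := Int.natCast_dvd.1 h
    have := Nat.le_of_dvd (Int.natAbs_pos.2 he) h3
    omega

/-- families without linear factors -/
lemma general_of {f : K → ℤ[X]} (hl : ∀ k, (f k).natDegree ≠ 1) : General f := by
  have hLn : Pool.Agent.Results.MP_ab3ecb_nt.TwistsNearBranchPoint.Ln f = ∅ := by
    unfold Pool.Agent.Results.MP_ab3ecb_nt.TwistsNearBranchPoint.Ln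
    rw [Finset.filter_eq_empty_iff]
    exact fun k _ => hl k
  refine ⟨fun i hi => ?_, fun h4 hs => ?_⟩
  · exact absurd hi (by rw [hLn]; exact Finset.notMem_empty i)
  · exfalso
    rw [hLn, Finset.subset_empty] at hs
    rw [hs, Finset.card_empty] at h4
    omega

end K

/-- odd valuation -/
lemma dvd_of_odd {p : ℕ} [Fact p.Prime] {s m : ℤ} (hs : s ≠ 0) (hm : m ≠ 0)
    (h : Odd (padicValInt p (s * m ^ 2))) : (p : ℤ) ∣ s := by
  by_contra hno
  rw [padicValInt.mul hs (pow_ne_zero 2 hm), pow_two, padicValInt.mul hm hm,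
    padicValInt.eq_zero_of_not_dvd hno, zero_add] at h
  exact (Nat.not_even_iff_odd.2 h) ⟨_, rfl⟩

/-- The polynomials `X`, `X³ - 2`, `X³ - 3`, `X³ - 5`. -/
noncomputable def ex' : Fin 4 → ℤ[X] := ![X, X ^ 3 - 2, X ^ 3 - 3, X ^ 3 - 5]

lemma ex'_deg : (ex' 0).natDegree = 1 ∧ ∀ k, k ≠ 0 → (ex' k).natDegree = 3 := by
  refine ⟨?_, ?_⟩
  · show (X : ℤ[X]).natDegree = 1
    exact natDegree_X
  · intro k hk
    fin_cases k
    · exact absurd rfl hk
    · show (X ^ 3 - 2 : ℤ[X]).natDegree = 3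
      compute_degree!
    · show (X ^ 3 - 3 : ℤ[X]).natDegree = 3
      compute_degree!
    · show (X ^ 3 - 5 : ℤ[X]).natDegree = 3
      compute_degree!

lemma ex'_factors : Factors ex' := by
  have m0 : (ex' 0).map (Int.castRingHom ℚ) = X := by simp [ex']
  have m1 : (ex' 1).map (Int.castRingHom ℚ) = X ^ 3 - C ((2 : ℤ) : ℚ) := by
    simp [ex']
    exact (map_ofNat C 2).symm
  have m2 : (ex' 2).map (Int.castRingHom ℚ) = X ^ 3 - C ((3 : ℤ) : ℚ) := by
    simp [ex']
    exact (map_ofNat C 3).symm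
  have m3 : (ex' 3).map (Int.castRingHom ℚ) = X ^ 3 - C ((5 : ℤ) : ℚ) := by
    simp [ex']
    exact (map_ofNat C 5).symm
  have na : ∀ a : ℤ, ¬ Associated (X : ℚ[X]) (X ^ 3 - C (a : ℚ)) := by
    intro a h
    have h1 := degree_eq_degree_of_associated h
    rw [degree_X, degree_X_pow_sub_C (by norm_num)] at h1
    exact absurd h1 (by decide)
  obtain ⟨d0, d1⟩ := ex'_deg
  refine ⟨?_, ?_, ?_, ?_⟩
  · intro k
    fin_cases k
    · exact m0 ▸ irreducible_X
    · exact m1 ▸ Pool.Agent.Y488.TM.irr_cube 2 (by norm_num)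
    · exact m2 ▸ Pool.Agent.Y488.TM.irr_cube 3 (by norm_num)
    · exact m3 ▸ Pool.Agent.Y488.TM.irr_cube 5 (by norm_num)
  · have key : ∀ k l : Fin 4, k < l →
        ¬ Associated ((ex' k).map (Int.castRingHom ℚ)) ((ex' l).map (Int.castRingHom ℚ)) := by
      intro k l hkl
      fin_cases k <;> fin_cases l <;> first | exact absurd hkl (by decide) | skip
      · exact m0 ▸ m1 ▸ na 2
      · exact m0 ▸ m2 ▸ na 3
      · exact m0 ▸ m3 ▸ na 5
      · exact m1 ▸ m2 ▸ Pool.Agent.Y488.TM.na_cube 2 3 (by norm_num)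
      · exact m1 ▸ m3 ▸ Pool.Agent.Y488.TM.na_cube 2 5 (by norm_num)
      · exact m2 ▸ m3 ▸ Pool.Agent.Y488.TM.na_cube 3 5 (by norm_num)
    intro k l hkl h
    rcases lt_or_gt_of_ne hkl with h1 | h1
    · exact key k l h1 h
    · exact key l k h1 h.symm
  · rw [Fin.sum_univ_four, d0, d1 1 (by decide), d1 2 (by decide), d1 3 (by decide)]
    decide
  · have h : (Finset.univ : Finset (Fin 4)) ⊆ BrauerManinMixedFactors.Od ex' := by
      intro k _
      unfold BrauerManinMixedFactors.Od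
      rw [Finset.mem_filter]
      refine ⟨Finset.mem_univ _, ?_⟩
      by_cases hk : k = 0
      · rw [hk, d0]; decide
      · rw [d1 k hk]; decide
    exact Finset.card_le_card h

lemma ex'_general : General ex' := by
  obtain ⟨d0, d1⟩ := ex'_deg
  have hLn : ∀ k, k ∈ Pool.Agent.Results.MP_ab3ecb_nt.TwistsNearBranchPoint.Ln ex' → k = 0 := by
    intro k hk
    unfold Pool.Agent.Results.MP_ab3ecb_nt.TwistsNearBranchPoint.Ln at hk
    rw [Finset.mem_filter] at hk
    by_contra h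
    have := d1 k h
    omega
  refine ⟨fun i hi k hk hik => absurd ((hLn i hi).trans (hLn k hk).symm) hik, fun _ hs => ?_⟩
  exfalso
  have h1 : (1 : Fin 4) ∈ Pool.Agent.Results.MP_ab3ecb_nt.TwistsNearBranchPoint.Od ex' := by
    unfold Pool.Agent.Results.MP_ab3ecb_nt.TwistsNearBranchPoint.Od
    rw [Finset.mem_filter]
    refine ⟨Finset.mem_univ _, ?_⟩
    rw [d1 1 (by decide)]
    decide
  exact absurd (hLn 1 (hs h1)) (by decide)

/-- **Theorem.** Let `v_n ≥ 1`, `L_n ≥ 1` be reals such that the sums of `L_n v_n ^ (-t)` converge for all `t > 0`. There is a null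
set `Z` such that for all `α > 1` outside `Z` and ALL finite families `f` of integral polynomials with the properties `Factors`
and `General` there are `z` and `n₀` such that for all `n ≥ n₀`, ALL integers `d ≠ 0` with `||d| - α ^ (v_n)| ≤ L_n` and ALL
even `m`: every adelic point of the curve `d y ^ m = ∏ k, F k (x, w)` which is orthogonal to the classes `(F k, e)`
(`deg F k` even) and `(F k F l, e)` (`deg F k`, `deg F l` odd) has at all places the type of the zero of one linear form `F i`,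
and reduces to it modulo all primes `p > z` which divide `d` exactly to an odd power. (If there are no linear forms, there are
no orthogonal points.) The sets of places with nontrivial local invariant are finite. The families `ex`, without linear
factors, and `ex'`, with one linear factor, have the two properties, and all the curves for `ex` have adelic points. -/
theorem result :
    (∀ v L : ℕ → ℝ, (∀ n, 1 ≤ v n) → (∀ n, 1 ≤ L n) → (∀ t : ℝ, 0 < t → Summable fun n => L n * (v n) ^ (-t)) →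
      ∃ Z : Set ℝ, volume Z = 0 ∧ ∀ α : ℝ, 1 < α → α ∉ Z →
        ∀ (r : ℕ) (f : Fin r → ℤ[X]), Factors f → General f →
          ∃ z n₀ : ℕ, ∀ n : ℕ, n₀ ≤ n → ∀ d : ℤ, d ≠ 0 → |(|d| : ℝ) - α ^ (v n)| ≤ L n →
            ∀ (m : ℕ) (hm : Even m) (P : AdelicCoverPoint f d m), Orthogonal (image hm P) →
              ∃ i, (f i).natDegree = 1 ∧ TypeOf (image hm P) i ∧ ReducesTo z (image hm P) i) ∧
    (∀ (r : ℕ) (f : Fin r → ℤ[X]), Factors f → ∀ d : ℤ, d ≠ 0 → ∀ (P : AdelicPoint f d) (e : ℤ), e ≠ 0 →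
      (∀ k, Even (f k).natDegree → (ram (values P k) e).Finite) ∧
      ∀ k l, Odd (f k).natDegree → Odd (f l).natDegree → (ram (values2 P k l) e).Finite) ∧
    (Factors ex ∧ General ex ∧ (∀ k, (ex k).natDegree ≠ 1) ∧ ∀ (d : ℤ) (m : ℕ), m ≠ 0 →
      Nonempty (AdelicCoverPoint ex d m)) ∧
    (Factors ex' ∧ General ex' ∧ (ex' 0).natDegree = 1 ∧ ∀ k, k ≠ 0 → (ex' k).natDegree = 3) := by
  refine ⟨fun v L hv hL hs => ?_, fun r f hF d hd P e he => ?_, ?_,
    ex'_factors, ex'_general, ex'_deg.1, ex'_deg.2⟩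
  · have : Countable ℤ[X] := by
      rw [← Cardinal.mk_le_aleph0_iff]
      exact Polynomial.cardinalMk_le_max.trans (by simp)
    have hone : ∀ F : (Σ r : ℕ, (Fin r → ℤ[X])), ∃ Z : Set ℝ, volume Z = 0 ∧ (Factors F.2 →
        General F.2 → ∀ α : ℝ, 1 < α → α ∉ Z →
          ∃ z n₀ : ℕ, ∀ n : ℕ, n₀ ≤ n → ∀ d : ℤ, d ≠ 0 → |(|d| : ℝ) - α ^ (v n)| ≤ L n →
            ∀ (m : ℕ) (hm : Even m) (P : AdelicCoverPoint F.2 d m), Orthogonal (image hm P) →
              ∃ i, (F.2 i).natDegree = 1 ∧ TypeOf (image hm P) i ∧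
                ReducesTo z (image hm P) i) := by
      rintro ⟨r, f⟩
      by_cases hf : Factors f ∧ General f
      · obtain ⟨hF, hG⟩ := hf
        have hH := hyp_of hF hG
        obtain ⟨z, hz⟩ := Pool.Agent.Y488.TM.near f hH
        obtain ⟨δ, hδ, C, hC⟩ := Pool.Agent.Y488.TM.mainl f hH
        obtain ⟨Z, hZ, hw⟩ := Pool.Agent.R482.ST.mills_twists (fun s => ∃ δ : Fin r → ℤ,
          (∀ k, δ k ≠ 0) ∧ IsSquare (s * ∏ k, δ k) ∧
          (∀ (p : ℕ) [Fact p.Prime], Pool.Agent.W262.TW.HasPt f δ ℚ_[p]) ∧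
          ¬ Pool.Agent.Y488.TM.ConstC f δ) hδ 3 (fun X hX => hC X hX) hv hL (hs δ hδ)
        refine ⟨Z, hZ, fun _ _ α hα hαZ => ?_⟩
        obtain ⟨n₀, hn⟩ := hw α hα hαZ
        refine ⟨z, n₀, fun n hn1 d hd hdw m' hm' P hP => ?_⟩
        obtain ⟨s, m, h4, h5, rfl⟩ := Pool.Agent.R482.ST.sf_decomp d hd
        have hm0 : m ≠ 0 := by omega
        have hb := hn n hn1 s m h4 h5 (by
          push_cast at hdw
          exact hdw)
        obtain ⟨i, hi, hT⟩ := typeOf_of hH hm0 h4.ne_zero hb (image hm' P) hP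
        refine ⟨i, hi, hT, fun p hzp hodd => ?_⟩
        have : Fact (p : ℕ).Prime := ⟨p.2⟩
        have hps := dvd_of_odd h4.ne_zero hm0 hodd
        have hmF : ((m : ℤ) : ℚ_[(p : ℕ)]) ≠ 0 := Int.cast_ne_zero.2 hm0
        exact hz s h4 (p : ℕ) hzp hps (down ((image hm' P).pa p)) i hi
          (fun T hiT hev => isSquare_down hmF ((image hm' P).pa p) _ T ((hT T hiT hev).2 p))
      · exact ⟨∅, measure_empty, fun h1 h2 => absurd ⟨h1, h2⟩ hf⟩
    choose Z hZ h using hone
    refine ⟨⋃ F, Z F, measure_iUnion_null hZ, fun α hα hαZ r f hF hG => ?_⟩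
    rw [Set.mem_iUnion] at hαZ
    push Not at hαZ
    exact h ⟨r, f⟩ hF hG α hα (hαZ ⟨r, f⟩)
  · obtain ⟨z, hz⟩ := Pool.Agent.Y488.TM.finb (Fin r) f hF.1 hF.2.1 hF.2.2.1 d hd
    refine ⟨fun k hk => ram_fin _ e he z fun p hp => ?_, fun k l hk hl =>
      ram_fin _ e he z fun p hp => ?_⟩
    · have : Fact (p : ℕ).Prime := ⟨p.2⟩
      exact (hz (p : ℕ) hp (P.pa p)).1 k hk
    · have : Fact (p : ℕ).Prime := ⟨p.2⟩
      exact (hz (p : ℕ) hp (P.pa p)).2 k l hk hl
  · obtain ⟨h1, h2, h3⟩ := BrauerManinMixedFactors.result.2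
    refine ⟨h1, general_of h2, h2, fun d m hm => ?_⟩
    obtain ⟨P⟩ := h3 0
    refine ⟨⟨⟨P.re.x, P.re.w, 0, P.re.ne, ?_⟩, fun p => ⟨(P.pa p).x, (P.pa p).w, 0, (P.pa p).ne, ?_⟩⟩⟩
    · rw [zero_pow hm, mul_zero, ← P.re.eq, Int.cast_zero, zero_mul]
    · rw [zero_pow hm, mul_zero, ← (P.pa p).eq, Int.cast_zero, zero_mul]

end Pool.Agent.Results.MP_308fa9_nt.MixedFactorsNearPowers
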