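import Pool.Agent.Zk82.OS.Main
import Pool.Agent.Zk82.OS.Bern
import Pool.Agent.Results.MP_308fa9_nt.RandomOrbits

/-!
# The Selmer sets of ALL curves whose coefficients are made of digits of ONE typical number are empty

`E_i : y² = x³ + a_i x + b_i` (`i = 1, …, r`) are elliptic curves over `ℚ` with complex multiplication,
of arbitrary rank and without hypothesis on their Tate-Shafarevich groups, `A = E_1 × … × E_r`, `K` is a
number field with integral basis `ω`, `𝒯 = {Φ_l = 0} ⊆ A × ℙᵐ` a closed subvariety over `𝓞 K` with fibres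
of dimension at most `κ` over `A`, and `X_c = 𝒯 ∩ {F_1 = … = F_s = 0}`, where `F_j` runs through all forms
of multidegree `(d_j; e_j)` and `c` is the vector in `(𝓞 K)ᴶ` of all their coefficients, or the integral
vector of its `Q = |J| [K:ℚ]` coordinates with respect to `ω`; `D ≥ 1`, and the degrees are at least
`D - 1`; `γ = r / 2 - D (r + κ - s)` is positive (for curves `X_c`: `γ = r / 2 - D`). This is the setting of
the starting results `OverNumberFields` and `RandomOrbits` (whose definitions are used).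

Call `X_c` obstructed (`Obstructed`) if there is ONE squarefree level `N` such that, for ALL number
fields `F` containing `K` with `[F : ℚ] ≤ D`, the variety `X_c` has no point over `F` and its `N`-Selmer
set over `F` is empty. By the theory of descent the Brauer-Manin set of `X_c` over `F`, projected to the
finite places, is then empty, so that `X_c` (if it is a smooth curve) satisfies Q1 over all these `F`.

**Theorem, UNCONDITIONAL.** For almost every real number `θ` the following holds for ALL degrees, ALL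
products `A` of `r` elliptic curves as above, ALL `𝒯` with fibres of dimension at most `κ`, ALL bases
`b ≥ 2`, all `R`, all coordinates `σ 1, …, σ R` (repetitions allowed), all `u ≥ 0` and all
`v_1, …, v_R > 0` with `v_1 + … + v_R > Q - γ + R u`: let `H = 1 + max |c_σ|` be the size of `c`. For all
but finitely many `c ∈ (𝓞 K)ᴶ` with the property

(*) for each `k` a string of (about) `v_k log_b H` consecutive digits of the coordinate `c_(σ k)` in base
`b`, at any place, is a string of digits of `θ`, and these `R` strings of `θ` are at pairwise disjoint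
places up to the `H ^ u`-th digit of `θ`,

the variety `X_c` is obstructed. So it is enough that a proportion larger than `1 - γ / Q` of the digits of
the coordinates of `c` (`Q log_b H` in all) is made of a bounded number of pieces of the expansion of ONE
typical number, taken from disjoint places up to `H ^ u`, `u` small. The precise form of (*) is
`|c_(σ k) / b ^ (i k) - b ^ (m k) θ - j| ≤ H ^ (- v_k)`, see `PiecesOf`.

(2) The same is true for almost every sequence of independent digits in base `b` of arbitrary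
distributions with atoms at most `b ^ (-h)`, if `h (v_1 + … + v_R) > Q - γ + R u`. For example the digits of
`θ` can be typical digits of a point of a Cantor set of dimension larger than `1 - γ / Q`.

The starting result `OverNumberFields` bounds the number of the exceptional `c` of size at most `H` by
`H ^ (Q - γ + ε)`, for one `A` and one `𝒯`, which says nothing on the vectors in (*) for a given `θ`.

Proof. The count of `OverNumberFields` and the Borel-Cantelli lemma for one typical number and strings at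
pairwise disjoint places (`Pool/Agent/Zk82/OS/Main`): the digits at disjoint places are independent. The
starting tool for strings (`R942/HX`) has a different typical number for each coordinate.
-/

set_option autoImplicit false

namespace Pool.Agent.Results.MP_308fa9_nt.OneTypicalNumber

open MeasureTheory Filter Topology MvPolynomial NumberField

open scoped LinearAlgebra.Projectivization

open Pool.Agent.Results.MP_308fa9_nt.RandomOrbits (Coeffs Obstructed FewPoints Supersingular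
  Multihomogeneous value OnCurve HasPoint Sel supersingular_of)

/-- The index type of the coordinates (with respect to the integral basis) of all the coefficients of
the forms `F_1, …, F_s`. -/
abbrev Index (n₀ : ℕ) {r s : ℕ} (m : ℕ) (d : Fin s → Fin r → ℕ) (e : Fin s → ℕ) : Type :=
  Coeffs m d e × Fin n₀

/-- The closed subvariety `𝒯 = {Φ_l = 0}` of `A × ℙᵐ`, where `A` is the product of the elliptic curves
`y² = x³ + a_i x + b_i` with complex multiplication: its equations are multihomogeneous, and its fibres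
over `A` have dimension at most `κ` (in the sense of `FewPoints`). -/
def Suitable {K : Type} [Field K] [NumberField K] {r m q : ℕ} (κ D : ℕ) (a b : Fin r → ℤ)
    (Φ : Fin q → MvPolynomial ((Fin r × Fin 3) ⊕ Fin (m + 1)) (𝓞 K)) : Prop :=
  (∀ i, Supersingular (a i) (b i)) ∧
  (∃ (d' : Fin q → Fin r → ℕ) (e' : Fin q → ℕ), ∀ l, Multihomogeneous (Φ l) (d' l) (e' l)) ∧
  ∃ B : ℝ, FewPoints a b Φ κ B D

/-- The coordinate `σ` of `c` with respect to the integral basis `ω`. -/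
noncomputable def coord {K : Type} [Field K] [NumberField K] {n₀ : ℕ}
    (ω : Module.Basis (Fin n₀) ℤ (𝓞 K)) {J : Type} (c : J → 𝓞 K) (σ : J × Fin n₀) : ℤ :=
  ω.repr (c σ.1) σ.2

/-- The size of `c`: one plus the largest absolute value of a coordinate. -/
noncomputable def size {K : Type} [Field K] [NumberField K] {n₀ : ℕ}
    (ω : Module.Basis (Fin n₀) ℤ (𝓞 K)) {J : Type} [Fintype J] (c : J → 𝓞 K) : ℕ :=
  1 + Finset.univ.sup fun σ : J × Fin n₀ => (coord ω c σ).natAbs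

/-- For each `k < R` a string of digits of the integer `N k` in base `b` is a string of digits of `θ`:
`|N k / b ^ (i k) - b ^ (m k) θ - j| ≤ H ^ (- v k)` for an integer `j`, where `b ^ (i k) ≤ b H` and
`m k ≤ H ^ u`; and the `R` strings of `θ`, of `s` digits with `H ^ (- v k) b ^ s ≥ 1`, after the first
`m k` digits, are pairwise disjoint. -/
def PiecesOf (b : ℕ) (θ H u : ℝ) {R : ℕ} (v : Fin R → ℝ) (N : Fin R → ℤ) : Prop :=
  ∃ i m : Fin R → ℕ,
    (∀ k, (b : ℝ) ^ i k ≤ b * H ∧ (m k : ℝ) ≤ H ^ u ∧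
      ∃ j : ℤ, |(N k : ℝ) / (b : ℝ) ^ i k - (b : ℝ) ^ m k * θ - j| ≤ H ^ (-(v k))) ∧
    ∀ k l, k ≠ l → (∃ s : ℕ, 1 ≤ H ^ (-(v k)) * (b : ℝ) ^ s ∧ m k + s ≤ m l) ∨
      (∃ s : ℕ, 1 ≤ H ^ (-(v l)) * (b : ℝ) ^ s ∧ m l + s ≤ m k)

/-- The same with exact strings of a sequence `δ` of digits: the string of the `s k` digits of `|N k|` in
base `β` which ends with the digit of `β ^ (i k)` is the string `δ (m k), …, δ (m k + s k - 1)`; here
`β ^ (i k) ≤ β H`, `m k ≤ H ^ u`, `H ^ (v k) ≤ β ^ (s k) ≤ β H`, and the `R` strings of `δ` are pairwise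
disjoint. -/
def DigitPiecesOf (β : ℕ) (δ : ℕ → Fin β) (H u : ℝ) {R : ℕ} (v : Fin R → ℝ) (N : Fin R → ℤ) : Prop :=
  ∃ i m s : Fin R → ℕ,
    (∀ k, (β : ℝ) ^ i k ≤ β * H ∧ (m k : ℝ) ≤ H ^ u ∧ H ^ v k ≤ (β : ℝ) ^ s k ∧
      (β : ℝ) ^ s k ≤ β * H ∧
      ∀ j < s k, (δ (m k + (s k - 1 - j)) : ℕ) = (N k).natAbs / β ^ (i k + j) % β) ∧
    ∀ k l, k ≠ l → m k + s k ≤ m l ∨ m l + s l ≤ m k

/-- the data -/
abbrev Dat (K : Type) [Field K] [NumberField K] (r m : ℕ) : Type :=
  (Fin r → ℤ) × (Fin r → ℤ) × (Σ q : ℕ, (Fin q → MvPolynomial ((Fin r × Fin 3) ⊕ Fin (m + 1)) (𝓞 K)))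

lemma countable_dat {K : Type} [Field K] [NumberField K] {n₀ : ℕ}
    (ω : Module.Basis (Fin n₀) ℤ (𝓞 K)) (r m : ℕ) : Countable (Dat K r m) := by
  have h1 : Countable (𝓞 K) := ω.equivFun.toEquiv.countable_iff.2 inferInstance
  have h2 : Countable (MvPolynomial ((Fin r × Fin 3) ⊕ Fin (m + 1)) (𝓞 K)) := by
    rw [← Cardinal.mk_le_aleph0_iff]
    refine MvPolynomial.cardinalMk_le_max.trans ?_
    refine max_le (max_le ?_ ?_) le_rfl
    · rw [Cardinal.mk_le_aleph0_iff]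
      exact h1
    · exact Cardinal.mk_le_aleph0
  infer_instance

lemma nonempty_anti (n t : ℕ) :
    Nonempty ↥(Finset.piAntidiag (Finset.univ : Finset (Fin (n + 1))) t) := by
  refine ⟨⟨Pi.single 0 t, ?_⟩⟩
  rw [Finset.mem_piAntidiag]
  refine ⟨?_, fun _ _ => Finset.mem_univ _⟩
  simp

lemma card_coeffs {r s : ℕ} (m : ℕ) (d : Fin s → Fin r → ℕ) (e : Fin s → ℕ) :
    s ≤ Fintype.card (Coeffs m d e) := by
  classical
  have h1 : ∀ j : Fin s, Nonempty
      (↥(Finset.piAntidiag (Finset.univ : Finset (Fin (m + 1))) (e j)) ×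
        ((i : Fin r) → ↥(Finset.piAntidiag (Finset.univ : Finset (Fin 3)) (d j i)))) := by
    intro j
    have h2 := nonempty_anti m (e j)
    have h3 : ∀ i : Fin r, Nonempty ↥(Finset.piAntidiag (Finset.univ : Finset (Fin 3)) (d j i)) :=
      fun i => nonempty_anti 2 (d j i)
    infer_instance
  have h4 := Fintype.card_le_of_injective
    (fun j : Fin s => (⟨j, (h1 j).some⟩ : Coeffs m d e)) (fun x y hxy => by
      have := congrArg Sigma.fst hxy
      simpa using this)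
  rwa [Fintype.card_fin] at h4

/-- the number of the exceptional members -/
theorem count {K : Type} [Field K] [NumberField K] {n₀ : ℕ}
    (ω : Module.Basis (Fin n₀) ℤ (𝓞 K)) {r s m q : ℕ} (a b : Fin r → ℤ) (κ D : ℕ) (hD : 1 ≤ D)
    (hs : s ≤ r + κ) (hr : 2 * D * (r + κ - s) < r)
    (d : Fin s → Fin r → ℕ) (e : Fin s → ℕ) (hd : ∀ j i, D ≤ d j i + 1) (he : ∀ j, D ≤ e j + 1)
    (Φ : Fin q → MvPolynomial ((Fin r × Fin 3) ⊕ Fin (m + 1)) (𝓞 K)) (hS : Suitable κ D a b Φ)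
    (ε : ℝ) (hε : 0 < ε) :
    ∃ H₀ : ℕ, ∀ H : ℕ, H₀ ≤ H →
      (({v : Index n₀ m d e → ℤ | (∀ i, |v i| ≤ H) ∧
        ¬ Obstructed a b Φ D (fun x => ∑ i, v (x, i) • ω i)}.ncard : ℕ) : ℝ) ≤
        (H : ℝ) ^ ((Fintype.card (Index n₀ m d e) : ℝ) -
          ((r : ℝ) / 2 - D * ((r : ℝ) + κ - s)) + ε) := by
  obtain ⟨hE, ⟨d', e', hΦ⟩, B, M, p₁, hM, hpts⟩ := hS
  choose hdisc M₁ D₁ hM₁ hD₁ hss using hE
  obtain ⟨H₀, hH⟩ := Pool.Agent.N890.DU.mainF K r m κ s D n₀ hD hs
    (by rw [← mul_assoc]; exact hr) a b hdisc (∏ i, M₁ i)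
    (∏ i, D₁ i) (Finset.prod_pos fun i _ => hM₁ i) (Finset.prod_pos fun i _ => hD₁ i)
    (fun i p hp hpD hpM => hss i p hp
      (fun h => hpD (h.trans (Finset.dvd_prod_of_mem _ (Finset.mem_univ i))))
      ((Finset.dvd_prod_of_mem _ (Finset.mem_univ i)).trans hpM)) Φ d' e'
    hΦ ω d e hd he B M p₁ hM (fun p _ hp hM => hpts p hp hM) ε 1 hε one_pos
  refine ⟨H₀, fun H hH' => ?_⟩
  obtain ⟨N, hN, hNs, -, hcard⟩ := hH H hH'
  have hexp : (r : ℝ) / 2 - D * ((r : ℝ) + κ - s) = (r : ℝ) - (D * (r + κ - s) : ℕ) - r / 2 := by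
    push_cast [Nat.cast_sub hs]
    ring
  rw [hexp]
  refine le_trans (Nat.cast_le.2 (Set.ncard_le_ncard ?_ ?_)) hcard
  · rintro c ⟨hc1, hc'⟩
    refine ⟨hc1, ?_⟩
    unfold Obstructed at hc'
    push Not at hc'
    obtain ⟨F, _, _, _, hF, h⟩ := hc' N hN hNs
    refine ⟨F, inferInstance, inferInstance, inferInstance, hF, ?_⟩
    have h1 : HasPoint a b Φ (fun x => ∑ i, c (x, i) • ω i) F ∨
        (Sel a b Φ (fun x => ∑ i, c (x, i) • ω i) F N).Nonempty := by
      by_contra hcon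
      push Not at hcon
      exact (h hcon.1).ne_empty hcon.2
    rcases h1 with ⟨P, T, hT, h1, h2⟩ | ⟨ξ, h1, h2, h3⟩
    · refine Pool.Agent.N890.DU.isSel_of_point _ a b hdisc _ N hN _ P T hT fun l => ?_
      rcases l with l | j
      · simp only [Sum.elim_inl]
        rw [Pool.Agent.N89.CI.valP_lift0]
        exact h1 l
      · simp only [Sum.elim_inr]
        rw [Pool.Agent.N89.CI.valP_gen]
        exact h2 j
    · refine ⟨ξ, h1, h2, fun w => ?_⟩
      obtain ⟨ι, P, Q, ⟨T, hT, h4, h5⟩, h6, h7⟩ := h3 w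
      refine ⟨ι, P, Q, ⟨T, hT, fun l => ?_⟩, h6, h7⟩
      rcases l with l | j
      · simp only [Sum.elim_inl]
        rw [Pool.Agent.N89.CI.valP_lift0]
        exact h4 l
      · simp only [Sum.elim_inr]
        rw [Pool.Agent.N89.CI.valP_gen]
        exact h5 j
  · have h1 : {c : Index n₀ m d e → ℤ | ∀ j, c j ∈ Set.Icc (-(H : ℤ)) (H : ℤ)}.Finite :=
      Set.Finite.pi' fun _ => Set.finite_Icc _ _
    exact h1.subset fun c hc j => ⟨(abs_le.1 (hc.1 j)).1, (abs_le.1 (hc.1 j)).2⟩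

open Pool.Agent.R942.HX (Sparse)

/-- the exceptional members are sparse -/
theorem sparse {K : Type} [Field K] [NumberField K] {n₀ : ℕ}
    (ω : Module.Basis (Fin n₀) ℤ (𝓞 K)) {r s m q : ℕ} (a b : Fin r → ℤ) (κ D : ℕ) (hD : 1 ≤ D)
    (hs : s ≤ r + κ) (hr : 2 * D * (r + κ - s) < r)
    (d : Fin s → Fin r → ℕ) (e : Fin s → ℕ) (hd : ∀ j i, D ≤ d j i + 1) (he : ∀ j, D ≤ e j + 1)
    (Φ : Fin q → MvPolynomial ((Fin r × Fin 3) ⊕ Fin (m + 1)) (𝓞 K)) (hS : Suitable κ D a b Φ)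
    (hγ : (0 : ℝ) ≤ (Fintype.card (Index n₀ m d e) : ℝ) - ((r : ℝ) / 2 - D * ((r : ℝ) + κ - s))) :
    Sparse (fun c : Coeffs m d e → 𝓞 K => (size ω c : ℝ)) {c | ¬ Obstructed a b Φ D c}
      ((Fintype.card (Index n₀ m d e) : ℝ) - ((r : ℝ) / 2 - D * ((r : ℝ) + κ - s))) := by
  refine ⟨fun c _ => ?_, fun ε hε => ?_⟩
  · have h1 : 1 ≤ size ω c := by unfold size; omega
    have h2 : (1 : ℝ) ≤ (size ω c : ℝ) := by exact_mod_cast h1
    exact h2
  set κ' : ℝ := (Fintype.card (Index n₀ m d e) : ℝ) - ((r : ℝ) / 2 - D * ((r : ℝ) + κ - s)) with hκ'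
  obtain ⟨H₀, hH₀⟩ := count ω a b κ D hD hs hr d e hd he Φ hS ε hε
  refine ⟨((H₀ : ℝ) + 1) ^ (κ' + ε), fun X hX => ?_⟩
  set H : ℕ := max ⌊X⌋₊ H₀ with hH
  set S : Set (Index n₀ m d e → ℤ) := {v | (∀ i, |v i| ≤ H) ∧
        ¬ Obstructed a b Φ D (fun x => ∑ i, v (x, i) • ω i)} with hSdef
  have hSfin : S.Finite := by
    have h1 : {c : Index n₀ m d e → ℤ | ∀ j, c j ∈ Set.Icc (-(H : ℤ)) (H : ℤ)}.Finite :=
      Set.Finite.pi' fun _ => Set.finite_Icc _ _
    exact h1.subset fun c hc j => ⟨(abs_le.1 (hc.1 j)).1, (abs_le.1 (hc.1 j)).2⟩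
  have hsub : {t | t ∈ {c : Coeffs m d e → 𝓞 K | ¬ Obstructed a b Φ D c} ∧ (size ω t : ℝ) ≤ X} ⊆
      (fun v : Index n₀ m d e → ℤ => fun x => ∑ i, v (x, i) • ω i) '' S := by
    rintro c ⟨hc1, hc2⟩
    have h6 : (fun y => ∑ i, ω.repr (c y) i • ω i) = c := by
      funext y
      exact ω.sum_repr (c y)
    refine ⟨fun y => ω.repr (c y.1) y.2, ⟨fun i => ?_, ?_⟩, h6⟩
    · have h1 : (coord ω c i).natAbs ≤ size ω c := by
        unfold size
        have := Finset.le_sup (f := fun σ : Coeffs m d e × Fin n₀ => (coord ω c σ).natAbs)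
          (Finset.mem_univ i)
        omega
      have h2 : size ω c ≤ ⌊X⌋₊ := Nat.le_floor hc2
      have h3 : |ω.repr (c i.1) i.2| = (((coord ω c i).natAbs : ℕ) : ℤ) := by
        rw [Int.natCast_natAbs]; rfl
      rw [h3]
      have h4 : ⌊X⌋₊ ≤ H := le_max_left _ _
      exact_mod_cast h1.trans (h2.trans h4)
    · rw [h6]
      exact hc1
  refine ⟨(hSfin.image _).subset hsub, ?_⟩
  have h1 : ({t | t ∈ {c : Coeffs m d e → 𝓞 K | ¬ Obstructed a b Φ D c} ∧
      (size ω t : ℝ) ≤ X}.ncard : ℝ) ≤ (S.ncard : ℝ) := by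
    exact_mod_cast (Set.ncard_le_ncard hsub (hSfin.image _)).trans (Set.ncard_image_le hSfin)
  refine h1.trans ((hH₀ H (le_max_right _ _)).trans ?_)
  have hX0 : 0 ≤ X := by linarith
  rw [← Real.mul_rpow (by positivity) hX0]
  refine Real.rpow_le_rpow (Nat.cast_nonneg _) ?_ (by linarith)
  rw [hH]
  push_cast
  refine max_le ?_ ?_
  · have := Nat.floor_le hX0
    nlinarith [Nat.cast_nonneg (α := ℝ) H₀]
  · nlinarith [Nat.cast_nonneg (α := ℝ) H₀]

/-- almost everywhere, for all data -/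
theorem ae_data {K : Type} [Field K] [NumberField K] {n₀ : ℕ}
    (ω : Module.Basis (Fin n₀) ℤ (𝓞 K)) {r s : ℕ} (κ D : ℕ) (hD : 1 ≤ D)
    (hs : s ≤ r + κ) (hr : 2 * D * (r + κ - s) < r) {Ω : Type} [MeasurableSpace Ω] (P : Measure Ω)
    (C : Ω → ∀ (m : ℕ) (d : Fin s → Fin r → ℕ) (e : Fin s → ℕ), (q : ℕ) → (a b : Fin r → ℤ) →
      (Fin q → MvPolynomial ((Fin r × Fin 3) ⊕ Fin (m + 1)) (𝓞 K)) → (R : ℕ) →
      (Fin R → Index n₀ m d e) → Prop)
    (h : ∀ (m : ℕ) (d : Fin s → Fin r → ℕ) (e : Fin s → ℕ) (q : ℕ) (a b : Fin r → ℤ)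
      (Φ : Fin q → MvPolynomial ((Fin r × Fin 3) ⊕ Fin (m + 1)) (𝓞 K)) (R : ℕ)
      (σ : Fin R → Index n₀ m d e),
      (0 : ℝ) ≤ (Fintype.card (Index n₀ m d e) : ℝ) - ((r : ℝ) / 2 - D * ((r : ℝ) + κ - s)) →
      Sparse (fun c : Coeffs m d e → 𝓞 K => (size ω c : ℝ)) {c | ¬ Obstructed a b Φ D c}
        ((Fintype.card (Index n₀ m d e) : ℝ) - ((r : ℝ) / 2 - D * ((r : ℝ) + κ - s))) →
      ∀ᵐ θ ∂P, C θ m d e q a b Φ R σ) :
    ∀ᵐ θ ∂P, ∀ (m : ℕ) (d : Fin s → Fin r → ℕ) (e : Fin s → ℕ) (q : ℕ) (a b : Fin r → ℤ)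
      (Φ : Fin q → MvPolynomial ((Fin r × Fin 3) ⊕ Fin (m + 1)) (𝓞 K)) (R : ℕ)
      (σ : Fin R → Index n₀ m d e), (∀ j i, D ≤ d j i + 1) → (∀ j, D ≤ e j + 1) →
      Suitable κ D a b Φ → C θ m d e q a b Φ R σ := by
  have h𝓞 : Countable (𝓞 K) := ω.equivFun.toEquiv.countable_iff.2 inferInstance
  have hn₀ : 1 ≤ n₀ := by
    rcases Nat.eq_zero_or_pos n₀ with h | h
    · subst h
      have h1 : Subsingleton (𝓞 K) := ω.repr.toEquiv.subsingleton_congr.2 inferInstance
      exact absurd h1 (not_subsingleton (𝓞 K))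
    · exact h
  have h2D : (1 : ℝ) ≤ D := by exact_mod_cast hD
  have hsr : (0 : ℝ) ≤ (r : ℝ) + κ - s := by
    have : (s : ℝ) ≤ r + κ := by exact_mod_cast hs
    linarith
  have hr' : 2 * (D : ℝ) * ((r : ℝ) + κ - s) < r := by
    have h1 : ((2 * D * (r + κ - s) : ℕ) : ℝ) < r := by exact_mod_cast hr
    rw [Nat.cast_mul, Nat.cast_sub hs] at h1
    push_cast at h1
    exact h1
  have hs2 : (r : ℝ) / 2 < s := by
    have h1 : (r : ℝ) + κ - s ≤ D * ((r : ℝ) + κ - s) := le_mul_of_one_le_left hsr h2D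
    have h3 : (0 : ℝ) ≤ κ := Nat.cast_nonneg _
    nlinarith
  have hγ : ∀ (m : ℕ) (d : Fin s → Fin r → ℕ) (e : Fin s → ℕ),
      (0 : ℝ) ≤ (Fintype.card (Index n₀ m d e) : ℝ) - ((r : ℝ) / 2 - D * ((r : ℝ) + κ - s)) := by
    intro m d e
    have hcard : (s : ℝ) ≤ Fintype.card (Index n₀ m d e) := by
      have h1 : s ≤ Fintype.card (Index n₀ m d e) := by
        rw [Fintype.card_prod, Fintype.card_fin]
        exact (card_coeffs m d e).trans (Nat.le_mul_of_pos_right _ hn₀)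
      exact_mod_cast h1
    have : 0 ≤ (D : ℝ) * ((r : ℝ) + κ - s) := by positivity
    linarith
  rw [ae_all_iff]; intro m
  rw [ae_all_iff]; intro d
  rw [ae_all_iff]; intro e
  rw [ae_all_iff]; intro q
  rw [ae_all_iff]; intro a
  rw [ae_all_iff]; intro b
  have hΦ : Countable (Fin q → MvPolynomial ((Fin r × Fin 3) ⊕ Fin (m + 1)) (𝓞 K)) := by
    have h2 : Countable (MvPolynomial ((Fin r × Fin 3) ⊕ Fin (m + 1)) (𝓞 K)) := by
      rw [← Cardinal.mk_le_aleph0_iff]
      refine MvPolynomial.cardinalMk_le_max.trans ?_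
      refine max_le (max_le ?_ ?_) le_rfl
      · rw [Cardinal.mk_le_aleph0_iff]
        exact h𝓞
      · exact Cardinal.mk_le_aleph0
    infer_instance
  rw [ae_all_iff]; intro Φ
  rw [ae_all_iff]; intro R
  rw [ae_all_iff]; intro σ
  by_cases hc : (∀ j i, D ≤ d j i + 1) ∧ (∀ j, D ≤ e j + 1) ∧ Suitable κ D a b Φ
  · filter_upwards [h m d e q a b Φ R σ (hγ m d e)
      (sparse ω a b κ D hD hs hr d e hc.1 hc.2.1 Φ hc.2.2 (hγ m d e))] with θ hθ _ _ _
    exact hθ
  · filter_upwards with θ h1 h2 h3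
    exact absurd ⟨h1, h2, h3⟩ hc

/-- `𝒯 = A × ℙᵐ` -/
lemma suitable_univ {K : Type} [Field K] [NumberField K] {r : ℕ} (D m : ℕ) (a b : Fin r → ℤ)
    (hE : ∀ i, Supersingular (a i) (b i)) :
    Suitable (K := K) (m := m) m D a b (fun l : Fin 0 => l.elim0) := by
  refine ⟨hE, ⟨fun l => l.elim0, fun l => l.elim0, fun l => l.elim0⟩, 3 / 2, 1, 3,
    one_pos, ?_⟩
  intro p hp hp3 _ k _ _ _ _ φ V hV
  have h1 : {P : ℙ k (Fin (m + 1) → k) |
      ∀ l : Fin 0, value φ (l.elim0 : MvPolynomial ((Fin r × Fin 3) ⊕ Fin (m + 1)) (𝓞 K)) V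
        P.rep = 0} = Set.univ :=
    Set.eq_univ_of_forall fun P l => l.elim0
  have h3 : 3 ≤ Nat.card k := by
    rw [Nat.card_eq_fintype_card]
    refine hp3.trans ?_
    have h4 := Fintype.card_le_of_injective _ (algebraMap (ZMod p) k).injective
    rwa [ZMod.card] at h4
  rw [h1, Set.ncard_univ]
  have h2 := Pool.Agent.N89.CI.density_fun (k := k) (m := m) (κ := m) h3 rfl
  rwa [Nat.card_eq_fintype_card (α := k)] at h2

/-- `𝒯 = A × Y` for a hypersurface `Y : f = 0` in `ℙ^(κ+1)` over `K` -/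
lemma suitable_hyp {K : Type} [Field K] [NumberField K] {r : ℕ} (D κ : ℕ) (a b : Fin r → ℤ)
    (hE : ∀ i, Supersingular (a i) (b i))
    (g : ℕ) (f : MvPolynomial (Fin (κ + 2)) (𝓞 K)) (hf : f.IsHomogeneous g) (hf0 : f ≠ 0) :
    Suitable (K := K) (m := κ + 1) κ D a b (fun _ : Fin 1 => rename Sum.inr f) := by
  obtain ⟨p₁, hp₁⟩ := Pool.Agent.N890.DU.hyp_countK κ g f hf hf0
  refine ⟨hE, ⟨fun _ _ => 0, fun _ => g, fun _ => ?_⟩, 2 * g, 1, p₁, one_pos, ?_⟩
  · intro x hx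
    classical
    obtain ⟨y, hy1, hy2⟩ := coeff_rename_ne_zero _ _ _ (mem_support_iff.1 hx)
    subst hy1
    refine ⟨fun i => Finset.sum_eq_zero fun j _ => ?_, ?_⟩
    · rw [Finsupp.mapDomain_of_notMem_range]
      simp
    · have h1 := hf hy2
      rw [Finsupp.weight_apply, Finsupp.sum_fintype _ _ (fun _ => by simp)] at h1
      rw [← h1]
      refine Finset.sum_congr rfl fun i _ => ?_
      rw [Finsupp.mapDomain_apply Sum.inr_injective]
      simp
  · intro p hp hp1 _ k _ _ _ _ φ V hV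
    refine le_trans (le_of_eq ?_) (hp₁ p hp1 k φ)
    congr 2
    ext P
    simp only [Set.mem_ofPred_eq]
    unfold value
    rw [eval₂_rename]
    simp only [Sum.elim_comp_inr]
    exact ⟨fun h => h 0, fun h _ => h⟩

/-- **Theorem.** `γ = r / 2 - D (r + κ - s)`, `Q` is the number of the coordinates of the coefficients.
(1) For almost every real number `θ`: for ALL degrees `d, e` (at least `D - 1`), ALL products `A` of `r` CM
elliptic curves, ALL `𝒯` with fibres of dimension at most `κ`, ALL bases `β ≥ 2`, all choices `σ` of `R`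
coordinates, all `u ≥ 0` and all positive `v k` with `∑ v k > Q - γ + R u`, for all but finitely many
`c ∈ (𝓞 K)ᴶ` whose coordinates `σ k` have strings of digits in common with `θ` as in `PiecesOf`, the variety
`X_c` is `Obstructed`. (2) The same for almost every sequence of independent digits in base `β`, of any
distributions `μ q` with atoms at most `β ^ (-h)`, if `h ∑ v k > Q - γ + R u` (`DigitPiecesOf`). -/
theorem result (K : Type) [Field K] [NumberField K] (n₀ : ℕ)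
    (ω : Module.Basis (Fin n₀) ℤ (𝓞 K)) (r κ s D : ℕ) (hD : 1 ≤ D) (hs : s ≤ r + κ)
    (hr : 2 * D * (r + κ - s) < r) :
    (∀ᵐ θ : ℝ, ∀ (m : ℕ) (d : Fin s → Fin r → ℕ) (e : Fin s → ℕ), (∀ j i, D ≤ d j i + 1) →
      (∀ j, D ≤ e j + 1) → ∀ (q : ℕ) (a b : Fin r → ℤ)
      (Φ : Fin q → MvPolynomial ((Fin r × Fin 3) ⊕ Fin (m + 1)) (𝓞 K)), Suitable κ D a b Φ →
      ∀ (β R : ℕ) (σ : Fin R → Index n₀ m d e) (u : ℝ) (v : Fin R → ℝ), 2 ≤ β → 0 ≤ u →
      (∀ k, 0 < v k) →
      (Fintype.card (Index n₀ m d e) : ℝ) - ((r : ℝ) / 2 - D * ((r : ℝ) + κ - s)) + R * u <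
        ∑ k, v k →
      {c : Coeffs m d e → 𝓞 K | PiecesOf β θ (size ω c) u v (fun k => coord ω c (σ k)) ∧
        ¬ Obstructed a b Φ D c}.Finite) ∧
    (∀ (β : ℕ) (μ : ℕ → Measure (Fin β)) [∀ q, IsProbabilityMeasure (μ q)] (h : ℝ), 2 ≤ β →
      0 < h → (∀ q x, μ q {x} ≤ ENNReal.ofReal ((β : ℝ) ^ (-h))) →
      ∀ᵐ δ ∂(Measure.infinitePi μ), ∀ (m : ℕ) (d : Fin s → Fin r → ℕ) (e : Fin s → ℕ),
      (∀ j i, D ≤ d j i + 1) → (∀ j, D ≤ e j + 1) → ∀ (q : ℕ) (a b : Fin r → ℤ)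
      (Φ : Fin q → MvPolynomial ((Fin r × Fin 3) ⊕ Fin (m + 1)) (𝓞 K)), Suitable κ D a b Φ →
      ∀ (R : ℕ) (σ : Fin R → Index n₀ m d e) (u : ℝ) (v : Fin R → ℝ), 0 ≤ u →
      (∀ k, 0 < v k) →
      (Fintype.card (Index n₀ m d e) : ℝ) - ((r : ℝ) / 2 - D * ((r : ℝ) + κ - s)) + R * u <
        h * ∑ k, v k →
      {c : Coeffs m d e → 𝓞 K | DigitPiecesOf β δ (size ω c) u v (fun k => coord ω c (σ k)) ∧
        ¬ Obstructed a b Φ D c}.Finite) ∧
    -- the curves `y² = x³ + a x` and `y² = x³ + b`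
    (∀ a b : ℤ, a * b = 0 → (a ≠ 0 ∨ b ≠ 0) → Supersingular a b) ∧
    -- `𝒯 = A × ℙ^κ`, and `𝒯 = A × Y` for a hypersurface `Y : f = 0` in `ℙ^(κ+1)` over `K`
    (∀ (a b : Fin r → ℤ), (∀ i, Supersingular (a i) (b i)) →
      Suitable (K := K) (m := κ) κ D a b (fun l : Fin 0 => l.elim0) ∧
      ∀ (g : ℕ) (f : MvPolynomial (Fin (κ + 2)) (𝓞 K)), f.IsHomogeneous g → f ≠ 0 →
        Suitable (K := K) (m := κ + 1) κ D a b (fun _ : Fin 1 => rename Sum.inr f)) := by
  refine ⟨?_, ?_, supersingular_of, fun a b hE => ⟨suitable_univ D κ a b hE,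
    fun g f hf hf0 => suitable_hyp D κ a b hE g f hf hf0⟩⟩
  · have key := ae_data ω κ D hD hs hr (volume : Measure ℝ)
      (fun θ m d e q a b Φ R σ => ∀ β : ℕ, 2 ≤ β → ∀ (u : ℝ) (v : Fin R → ℝ), 0 ≤ u →
        (∀ k, 0 < v k) →
        (Fintype.card (Index n₀ m d e) : ℝ) - ((r : ℝ) / 2 - D * ((r : ℝ) + κ - s)) + R * u <
          ∑ k, v k →
        {c : Coeffs m d e → 𝓞 K | PiecesOf β θ (size ω c) u v (fun k => coord ω c (σ k)) ∧
          ¬ Obstructed a b Φ D c}.Finite) (by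
      intro m d e q a b Φ R σ h0 hE
      filter_upwards [Pool.Agent.Zk82.OS.one_number hE h0
        (fun (k : Fin R) (c : Coeffs m d e → 𝓞 K) => (coord ω c (σ k) : ℝ)) (w := 1)
        zero_le_one] with θ hθ β hβ u v hu hv0 hv
      refine (hθ β hβ u v hu hv0 hv).subset ?_
      rintro c ⟨h3, h2⟩
      refine ⟨h2, ?_⟩
      rw [Real.rpow_one]
      exact h3)
    filter_upwards [key] with θ hθ m d e hd he q a b Φ hS β R σ u v hβ hu hv0 hv
    exact hθ m d e q a b Φ R σ hd he hS β hβ u v hu hv0 hv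
  · intro β μ _ h hβ hh hμ
    have key := ae_data ω κ D hD hs hr (Measure.infinitePi μ)
      (fun δ m d e q a b Φ R σ => ∀ (u : ℝ) (v : Fin R → ℝ), 0 ≤ u → (∀ k, 0 < v k) →
        (Fintype.card (Index n₀ m d e) : ℝ) - ((r : ℝ) / 2 - D * ((r : ℝ) + κ - s)) + R * u <
          h * ∑ k, v k →
        {c : Coeffs m d e → 𝓞 K | DigitPiecesOf β δ (size ω c) u v (fun k => coord ω c (σ k)) ∧
          ¬ Obstructed a b Φ D c}.Finite) (by
      intro m d e q a b Φ R σ h0 hE
      filter_upwards [Pool.Agent.Zk82.OS.one_sequence hE h0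
        (fun (k : Fin R) (c : Coeffs m d e → 𝓞 K) => coord ω c (σ k)) (w := 1)
        zero_le_one β hβ μ hh hμ] with δ hδ u v hu hv0 hv
      refine (hδ u v hu hv0 hv).subset ?_
      rintro c ⟨h3, h2⟩
      refine ⟨h2, ?_⟩
      rw [Real.rpow_one]
      exact h3)
    filter_upwards [key] with δ hδ m d e hd he q a b Φ hS R σ u v hu hv0 hv
    exact hδ m d e q a b Φ R σ hd he hS u v hu hv0 hv

end Pool.Agent.Results.MP_308fa9_nt.OneTypicalNumber
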