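import Pool.Agent.Zk49.Rad
import Pool.Agent.Results.MP_308fa9_nt.RandomOrbits

/-!
# The Selmer sets of ALL curves near almost every real member of a large linear system are empty

`E_i : y² = x³ + a_i x + b_i` (`i = 1, …, r`) are elliptic curves over `ℚ` with complex multiplication,
of arbitrary rank and without hypothesis on their Tate-Shafarevich groups, `A = E_1 × … × E_r`, `K` is a
number field with integral basis `ω`, `𝒯 = {Φ_l = 0} ⊆ A × ℙᵐ` a closed subvariety over `𝓞 K` with fibres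
of dimension at most `κ` over `A`, and `X_c = 𝒯 ∩ {F_1 = … = F_s = 0}`, where `F_j` runs through all forms
of multidegree `(d_j; e_j)` and `c` is the vector in `(𝓞 K)ᴶ` of all their coefficients, or the integral
vector of its `Q = |J| [K:ℚ]` coordinates with respect to `ω`; `D ≥ 1`, and the degrees are at least
`D - 1`; `γ = r / 2 - D (r + κ - s)` is positive (for curves `X_c`: `γ = r / 2 - D`). This is the setting of
the starting results `OverNumberFields` and `RandomOrbits` (whose definitions are used).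

Call `X_c` obstructed (`Obstructed`) if there is ONE squarefree level `N` such that, for ALL number
fields `F` containing `K` with `[F : ℚ] ≤ D`, the variety `X_c` has no point over `F` and its `N`-Selmer
set over `F` is empty. By the theory of descent the Brauer-Manin set of `X_c` over `F`, projected to the
finite places, is then empty, so that `X_c` (if it is a smooth curve) satisfies Q1 over all these `F`.

Let `f_0, f_1, …` be positive functions on `(a, ∞)`, `a ≥ 0`, such that `f_n(x) / x` is nondecreasing and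
`f_n(x)` has exponent of convergence at most `τ` for each `x > a`: for instance `v_n x` with `v_n > 0` of
exponent of convergence `τ`, or `x ^ (v_n)` with `v_n ≥ 1` (`τ = 0`), or the iterates of a map `g` with
`g(x) > x` and `g(x) / x` nondecreasing (`τ = 0`).

**Theorem, UNCONDITIONAL.** Let `θ < 1`. There is a set `B ⊆ ℝ^Q = (K ⊗ ℝ)ᴶ` of Hausdorff dimension at most
`(Q - γ + τ) / (1 - θ)`, which is a null set if `Q θ + τ < γ`, such that for all real members
`u ∈ ℝ^Q ∖ B`, `‖u‖ > a`, of the linear system, ALL products `A` of `r` elliptic curves as above, ALL `𝒯`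
with fibres of dimension at most `κ`, all constants `C` and all but finitely many `n`: for EVERY
`c ∈ (𝓞 K)ᴶ` with coordinates within `C x ^ θ` of `(x / ‖u‖) u`, `x = f_n(‖u‖)`, the variety `X_c` is
obstructed.

For `f_n(x) = n x` (`τ = 1`) these are all the `K`-rational members `X_(c / n)` with `c ∈ (𝓞 K)ᴶ`, for all
denominators `n`, at the distance at most `C n ^ (θ - 1)` from `X_u`: if `γ > 1`, almost every real member
has only finitely many such approximations with a nonempty Brauer-Manin set over a field of degree at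
most `D`, for `θ < (γ - 1) / Q` (every `u` has infinitely many approximations with `θ = - 1 / Q`). For
`f_n(x) = 2 ^ n x` the exponent `θ` can be any number less than `γ / Q`. The starting result
`OverNumberFields` bounds the number of the exceptional members with coordinates up to `H` by
`H ^ (Q - γ + ε)`, for one `A` and one `𝒯`, which says nothing on the members near one vector.

Proof. The count of `OverNumberFields`, and the theorem on thin sets of vectors and radial starshaped maps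
(`Pool/Agent/R482/ST/Radial`, helper482); there are countably many `A` and `𝒯`.
-/

set_option autoImplicit false

namespace Pool.Agent.Results.MP_308fa9_nt.SelmerSetsNearRealMembers

open MeasureTheory Filter Topology MvPolynomial NumberField

open scoped LinearAlgebra.Projectivization

open Pool.Agent.Results.MP_308fa9_nt.RandomOrbits (Coeffs Obstructed FewPoints Supersingular
  Multihomogeneous value OnCurve HasPoint Sel supersingular_of)

/-- the functions `f n` are positive on `(a, ∞)`, `a ≥ 0`, and `f n x / x` is nondecreasing there -/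
def Starshaped (a : ℝ) (f : ℕ → ℝ → ℝ) : Prop :=
  0 ≤ a ∧ ∀ n : ℕ, ∀ x y : ℝ, a < x → x ≤ y → 0 < f n x ∧ f n x / x ≤ f n y / y

/-- for each `x > a` the exponent of convergence of the sequence `f n x` is at most `τ` -/
def ExpLe (a : ℝ) (f : ℕ → ℝ → ℝ) (τ : ℝ) : Prop :=
  ∀ x : ℝ, a < x → ∀ t : ℝ, τ < t → Summable (fun n : ℕ => (f n x) ^ (-t))

/-- The index type of the coordinates (with respect to the integral basis) of all the coefficients of
the forms `F_1, …, F_s`. -/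
abbrev Index (n₀ : ℕ) {r s : ℕ} (m : ℕ) (d : Fin s → Fin r → ℕ) (e : Fin s → ℕ) : Type :=
  Coeffs m d e × Fin n₀

/-- The closed subvariety `𝒯 = {Φ_l = 0}` of `A × ℙᵐ`, where `A` is the product of the elliptic curves
`y² = x³ + a_i x + b_i` with complex multiplication: its equations are multihomogeneous, and its fibres
over `A` have dimension at most `κ` (in the sense of `FewPoints`). -/
def Suitable {K : Type} [Field K] [NumberField K] {r m q : ℕ} (κ D : ℕ) (a b : Fin r → ℤ)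
    (Φ : Fin q → MvPolynomial ((Fin r × Fin 3) ⊕ Fin (m + 1)) (𝓞 K)) : Prop :=
  (∀ i, Supersingular (a i) (b i)) ∧
  (∃ (d' : Fin q → Fin r → ℕ) (e' : Fin q → ℕ), ∀ l, Multihomogeneous (Φ l) (d' l) (e' l)) ∧
  ∃ B : ℝ, FewPoints a b Φ κ B D

/-- The coordinates of `c` (with respect to the integral basis `ω`) differ by at most `ρ` from those
of `(g ‖u‖ / ‖u‖) u`. -/
def Near {K : Type} [Field K] [NumberField K] {n₀ : ℕ} (ω : Module.Basis (Fin n₀) ℤ (𝓞 K))
    {J : Type} [Fintype J] (g : ℝ → ℝ) (ρ : ℝ) (u : J × Fin n₀ → ℝ) (c : J → 𝓞 K) : Prop :=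
  ∀ x i, |((ω.repr (c x) i : ℤ) : ℝ) - g ‖u‖ / ‖u‖ * u (x, i)| ≤ ρ

/-- the data -/
abbrev Dat (K : Type) [Field K] [NumberField K] (r m : ℕ) : Type :=
  (Fin r → ℤ) × (Fin r → ℤ) × (Σ q : ℕ, (Fin q → MvPolynomial ((Fin r × Fin 3) ⊕ Fin (m + 1)) (𝓞 K)))

lemma countable_dat {K : Type} [Field K] [NumberField K] {n₀ : ℕ}
    (ω : Module.Basis (Fin n₀) ℤ (𝓞 K)) (r m : ℕ) : Countable (Dat K r m) := by
  have h1 : Countable (𝓞 K) := ω.equivFun.toEquiv.countable_iff.2 inferInstance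
  have h2 : Countable (MvPolynomial ((Fin r × Fin 3) ⊕ Fin (m + 1)) (𝓞 K)) := by
    rw [← Cardinal.mk_le_aleph0_iff]
    refine MvPolynomial.cardinalMk_le_max.trans ?_
    refine max_le (max_le ?_ ?_) le_rfl
    · rw [Cardinal.mk_le_aleph0_iff]
      exact h1
    · exact Cardinal.mk_le_aleph0
  infer_instance

lemma nonempty_anti (n t : ℕ) :
    Nonempty ↥(Finset.piAntidiag (Finset.univ : Finset (Fin (n + 1))) t) := by
  refine ⟨⟨Pi.single 0 t, ?_⟩⟩
  rw [Finset.mem_piAntidiag]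
  refine ⟨?_, fun _ _ => Finset.mem_univ _⟩
  simp

lemma card_coeffs {r s : ℕ} (m : ℕ) (d : Fin s → Fin r → ℕ) (e : Fin s → ℕ) :
    s ≤ Fintype.card (Coeffs m d e) := by
  classical
  have h1 : ∀ j : Fin s, Nonempty
      (↥(Finset.piAntidiag (Finset.univ : Finset (Fin (m + 1))) (e j)) ×
        ((i : Fin r) → ↥(Finset.piAntidiag (Finset.univ : Finset (Fin 3)) (d j i)))) := by
    intro j
    have h2 := nonempty_anti m (e j)
    have h3 : ∀ i : Fin r, Nonempty ↥(Finset.piAntidiag (Finset.univ : Finset (Fin 3)) (d j i)) :=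
      fun i => nonempty_anti 2 (d j i)
    infer_instance
  have h4 := Fintype.card_le_of_injective
    (fun j : Fin s => (⟨j, (h1 j).some⟩ : Coeffs m d e)) (fun x y hxy => by
      have := congrArg Sigma.fst hxy
      simpa using this)
  rwa [Fintype.card_fin] at h4

/-- the number of the exceptional members -/
theorem count {K : Type} [Field K] [NumberField K] {n₀ : ℕ}
    (ω : Module.Basis (Fin n₀) ℤ (𝓞 K)) {r s m q : ℕ} (a b : Fin r → ℤ) (κ D : ℕ) (hD : 1 ≤ D)
    (hs : s ≤ r + κ) (hr : 2 * D * (r + κ - s) < r)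
    (d : Fin s → Fin r → ℕ) (e : Fin s → ℕ) (hd : ∀ j i, D ≤ d j i + 1) (he : ∀ j, D ≤ e j + 1)
    (Φ : Fin q → MvPolynomial ((Fin r × Fin 3) ⊕ Fin (m + 1)) (𝓞 K)) (hS : Suitable κ D a b Φ)
    (ε : ℝ) (hε : 0 < ε) :
    ∃ H₀ : ℕ, ∀ H : ℕ, H₀ ≤ H →
      (({v : Index n₀ m d e → ℤ | (∀ i, |v i| ≤ H) ∧
        ¬ Obstructed a b Φ D (fun x => ∑ i, v (x, i) • ω i)}.ncard : ℕ) : ℝ) ≤
        (H : ℝ) ^ ((Fintype.card (Index n₀ m d e) : ℝ) -
          ((r : ℝ) / 2 - D * ((r : ℝ) + κ - s)) + ε) := by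
  obtain ⟨hE, ⟨d', e', hΦ⟩, B, M, p₁, hM, hpts⟩ := hS
  choose hdisc M₁ D₁ hM₁ hD₁ hss using hE
  obtain ⟨H₀, hH⟩ := Pool.Agent.N890.DU.mainF K r m κ s D n₀ hD hs
    (by rw [← mul_assoc]; exact hr) a b hdisc (∏ i, M₁ i)
    (∏ i, D₁ i) (Finset.prod_pos fun i _ => hM₁ i) (Finset.prod_pos fun i _ => hD₁ i)
    (fun i p hp hpD hpM => hss i p hp
      (fun h => hpD (h.trans (Finset.dvd_prod_of_mem _ (Finset.mem_univ i))))
      ((Finset.dvd_prod_of_mem _ (Finset.mem_univ i)).trans hpM)) Φ d' e'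
    hΦ ω d e hd he B M p₁ hM (fun p _ hp hM => hpts p hp hM) ε 1 hε one_pos
  refine ⟨H₀, fun H hH' => ?_⟩
  obtain ⟨N, hN, hNs, -, hcard⟩ := hH H hH'
  have hexp : (r : ℝ) / 2 - D * ((r : ℝ) + κ - s) = (r : ℝ) - (D * (r + κ - s) : ℕ) - r / 2 := by
    push_cast [Nat.cast_sub hs]
    ring
  rw [hexp]
  refine le_trans (Nat.cast_le.2 (Set.ncard_le_ncard ?_ ?_)) hcard
  · rintro c ⟨hc1, hc'⟩
    refine ⟨hc1, ?_⟩
    unfold Obstructed at hc'
    push Not at hc'
    obtain ⟨F, _, _, _, hF, h⟩ := hc' N hN hNs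
    refine ⟨F, inferInstance, inferInstance, inferInstance, hF, ?_⟩
    have h1 : HasPoint a b Φ (fun x => ∑ i, c (x, i) • ω i) F ∨
        (Sel a b Φ (fun x => ∑ i, c (x, i) • ω i) F N).Nonempty := by
      by_contra hcon
      push Not at hcon
      exact (h hcon.1).ne_empty hcon.2
    rcases h1 with ⟨P, T, hT, h1, h2⟩ | ⟨ξ, h1, h2, h3⟩
    · refine Pool.Agent.N890.DU.isSel_of_point _ a b hdisc _ N hN _ P T hT fun l => ?_
      rcases l with l | j
      · simp only [Sum.elim_inl]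
        rw [Pool.Agent.N89.CI.valP_lift0]
        exact h1 l
      · simp only [Sum.elim_inr]
        rw [Pool.Agent.N89.CI.valP_gen]
        exact h2 j
    · refine ⟨ξ, h1, h2, fun w => ?_⟩
      obtain ⟨ι, P, Q, ⟨T, hT, h4, h5⟩, h6, h7⟩ := h3 w
      refine ⟨ι, P, Q, ⟨T, hT, fun l => ?_⟩, h6, h7⟩
      rcases l with l | j
      · simp only [Sum.elim_inl]
        rw [Pool.Agent.N89.CI.valP_lift0]
        exact h4 l
      · simp only [Sum.elim_inr]
        rw [Pool.Agent.N89.CI.valP_gen]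
        exact h5 j
  · have h1 : {c : Index n₀ m d e → ℤ | ∀ j, c j ∈ Set.Icc (-(H : ℤ)) (H : ℤ)}.Finite :=
      Set.Finite.pi' fun _ => Set.finite_Icc _ _
    exact h1.subset fun c hc j => ⟨(abs_le.1 (hc.1 j)).1, (abs_le.1 (hc.1 j)).2⟩

/-- **Theorem.** -/
theorem near {K : Type} [Field K] [NumberField K] {n₀ : ℕ}
    (ω : Module.Basis (Fin n₀) ℤ (𝓞 K)) {r s : ℕ} (κ D : ℕ) (hD : 1 ≤ D)
    (hs : s ≤ r + κ) (hr : 2 * D * (r + κ - s) < r) (m : ℕ)
    (d : Fin s → Fin r → ℕ) (e : Fin s → ℕ) (hd : ∀ j i, D ≤ d j i + 1) (he : ∀ j, D ≤ e j + 1)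
    (f : ℕ → ℝ → ℝ) (α τ θ : ℝ) (hf : Starshaped α f) (hτ : 0 ≤ τ) (hv : ExpLe α f τ) (hθ : θ < 1) :
    ∃ B : Set (Index n₀ m d e → ℝ),
      dimH B ≤ ENNReal.ofReal (((Fintype.card (Index n₀ m d e) : ℝ) -
        ((r : ℝ) / 2 - D * ((r : ℝ) + κ - s)) + τ) / (1 - θ)) ∧
      ((Fintype.card (Index n₀ m d e) : ℝ) * θ + τ < (r : ℝ) / 2 - D * ((r : ℝ) + κ - s) →
        volume B = 0) ∧
      ∀ u : Index n₀ m d e → ℝ, α < ‖u‖ → u ∉ B →
        ∀ (q : ℕ) (a b : Fin r → ℤ) (Φ : Fin q → MvPolynomial ((Fin r × Fin 3) ⊕ Fin (m + 1)) (𝓞 K)),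
          Suitable κ D a b Φ → ∀ C : ℝ, ∃ n₁ : ℕ, ∀ n : ℕ, n₁ ≤ n → ∀ c : Coeffs m d e → 𝓞 K,
            Near ω (f n) (C * (f n ‖u‖) ^ θ) u c → Obstructed a b Φ D c := by
  have hcount := countable_dat ω r m
  let κ' : Type := {x : Dat K r m // Suitable κ D x.1 x.2.1 x.2.2.2}
  have hcount' : Countable κ' := Subtype.countable
  have hn₀ : 1 ≤ n₀ := by
    rcases Nat.eq_zero_or_pos n₀ with h | h
    · subst h
      have h1 : Subsingleton (𝓞 K) := ω.repr.toEquiv.subsingleton_congr.2 inferInstance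
      exact absurd h1 (not_subsingleton (𝓞 K))
    · exact h
  have h2D : (1 : ℝ) ≤ D := by exact_mod_cast hD
  have hsr : (0 : ℝ) ≤ (r : ℝ) + κ - s := by
    have : (s : ℝ) ≤ r + κ := by exact_mod_cast hs
    linarith
  have hr' : 2 * (D : ℝ) * ((r : ℝ) + κ - s) < r := by
    have h1 : ((2 * D * (r + κ - s) : ℕ) : ℝ) < r := by exact_mod_cast hr
    rw [Nat.cast_mul, Nat.cast_sub hs] at h1
    push_cast at h1
    exact h1
  have hs2 : (r : ℝ) / 2 < s := by
    have h1 : (r : ℝ) + κ - s ≤ D * ((r : ℝ) + κ - s) := le_mul_of_one_le_left hsr h2D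
    have h3 : (0 : ℝ) ≤ κ := Nat.cast_nonneg _
    nlinarith
  have hs0 : 0 < s := by
    have h3 : (0 : ℝ) ≤ r := Nat.cast_nonneg _
    have : (0 : ℝ) < s := by linarith
    exact_mod_cast this
  have hcard : (s : ℝ) ≤ Fintype.card (Index n₀ m d e) := by
    have h1 : s ≤ Fintype.card (Index n₀ m d e) := by
      rw [Fintype.card_prod, Fintype.card_fin]
      exact (card_coeffs m d e).trans (Nat.le_mul_of_pos_right _ hn₀)
    exact_mod_cast h1
  have hne : Nonempty (Index n₀ m d e) := by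
    rw [← Fintype.card_pos_iff]
    have : (0 : ℝ) < Fintype.card (Index n₀ m d e) :=
      lt_of_lt_of_le (by exact_mod_cast hs0) hcard
    exact_mod_cast this
  have hγ : (r : ℝ) / 2 - D * ((r : ℝ) + κ - s) ≤ Fintype.card (Index n₀ m d e) := by
    have : 0 ≤ (D : ℝ) * ((r : ℝ) + κ - s) := by positivity
    linarith
  obtain ⟨B, h1, h2, h3⟩ := Pool.Agent.Zk49.radial (ι := Index n₀ m d e) (κ := κ')
    (fun x => {v | ¬ Obstructed x.1.1 x.1.2.1 x.1.2.2.2 D (fun y => ∑ i, v (y, i) • ω i)}) hγ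
    (fun x ε hε => count ω x.1.1 x.1.2.1 κ D hD hs hr d e hd he x.1.2.2.2 x.2 ε hε)
    hf.1 hf.2 hv hτ hθ
  refine ⟨B, h1, h2, fun u hu huB q a b Φ hS C => ?_⟩
  obtain ⟨n₁, h4⟩ := h3 u hu huB ⟨⟨a, b, q, Φ⟩, hS⟩ C
  refine ⟨n₁, fun n hn c hc => ?_⟩
  have h5 := h4 n hn (fun y => ω.repr (c y.1) y.2) (fun i => hc i.1 i.2)
  simp only [Set.mem_ofPred_eq, not_not] at h5
  have h6 : (fun y => ∑ i, ω.repr (c y) i • ω i) = c := by
    funext y
    exact ω.sum_repr (c y)
  rwa [h6] at h5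

/-- `𝒯 = A × ℙᵐ` -/
lemma suitable_univ {K : Type} [Field K] [NumberField K] {r : ℕ} (D m : ℕ) (a b : Fin r → ℤ)
    (hE : ∀ i, Supersingular (a i) (b i)) :
    Suitable (K := K) (m := m) m D a b (fun l : Fin 0 => l.elim0) := by
  refine ⟨hE, ⟨fun l => l.elim0, fun l => l.elim0, fun l => l.elim0⟩, 3 / 2, 1, 3,
    one_pos, ?_⟩
  intro p hp hp3 _ k _ _ _ _ φ V hV
  have h1 : {P : ℙ k (Fin (m + 1) → k) |
      ∀ l : Fin 0, value φ (l.elim0 : MvPolynomial ((Fin r × Fin 3) ⊕ Fin (m + 1)) (𝓞 K)) V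
        P.rep = 0} = Set.univ :=
    Set.eq_univ_of_forall fun P l => l.elim0
  have h3 : 3 ≤ Nat.card k := by
    rw [Nat.card_eq_fintype_card]
    refine hp3.trans ?_
    have h4 := Fintype.card_le_of_injective _ (algebraMap (ZMod p) k).injective
    rwa [ZMod.card] at h4
  rw [h1, Set.ncard_univ]
  have h2 := Pool.Agent.N89.CI.density_fun (k := k) (m := m) (κ := m) h3 rfl
  rwa [Nat.card_eq_fintype_card (α := k)] at h2

/-- `𝒯 = A × Y` for a hypersurface `Y : f = 0` in `ℙ^(κ+1)` over `K` -/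
lemma suitable_hyp {K : Type} [Field K] [NumberField K] {r : ℕ} (D κ : ℕ) (a b : Fin r → ℤ)
    (hE : ∀ i, Supersingular (a i) (b i))
    (g : ℕ) (f : MvPolynomial (Fin (κ + 2)) (𝓞 K)) (hf : f.IsHomogeneous g) (hf0 : f ≠ 0) :
    Suitable (K := K) (m := κ + 1) κ D a b (fun _ : Fin 1 => rename Sum.inr f) := by
  obtain ⟨p₁, hp₁⟩ := Pool.Agent.N890.DU.hyp_countK κ g f hf hf0
  refine ⟨hE, ⟨fun _ _ => 0, fun _ => g, fun _ => ?_⟩, 2 * g, 1, p₁, one_pos, ?_⟩
  · intro x hx
    classical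
    obtain ⟨y, hy1, hy2⟩ := coeff_rename_ne_zero _ _ _ (mem_support_iff.1 hx)
    subst hy1
    refine ⟨fun i => Finset.sum_eq_zero fun j _ => ?_, ?_⟩
    · rw [Finsupp.mapDomain_of_notMem_range]
      simp
    · have h1 := hf hy2
      rw [Finsupp.weight_apply, Finsupp.sum_fintype _ _ (fun _ => by simp)] at h1
      rw [← h1]
      refine Finset.sum_congr rfl fun i _ => ?_
      rw [Finsupp.mapDomain_apply Sum.inr_injective]
      simp
  · intro p hp hp1 _ k _ _ _ _ φ V hV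
    refine le_trans (le_of_eq ?_) (hp₁ p hp1 k φ)
    congr 2
    ext P
    simp only [Set.mem_ofPred_eq]
    unfold value
    rw [eval₂_rename]
    simp only [Sum.elim_comp_inr]
    exact ⟨fun h => h 0, fun h _ => h⟩

/-- **Theorem.** `γ = r / 2 - D (r + κ - s)`, `Q` is the number of the coordinates of the coefficients.
Let the `f_n` be starshaped on `(α, ∞)` of exponent of convergence at most `τ ≥ 0`, and `θ < 1`. There is a
set `B ⊆ ℝ^Q` of Hausdorff dimension at most `(Q - γ + τ) / (1 - θ)`, a null set if `Q θ + τ < γ`, such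
that for each real vector `u` outside `B`, `‖u‖ > α`, ALL products `A` of `r` CM elliptic curves, ALL `𝒯`
with fibres of dimension at most `κ`, each `C` and all but finitely many `n`, for EVERY `c ∈ (𝓞 K)ᴶ` near
`(x / ‖u‖) u`, `x = f_n(‖u‖)` (`Near`, with `C x ^ θ`), the variety `X_c` is `Obstructed`.
The functions `v_n x`, `v_n > 0`, are starshaped on `(0, ∞)`, of exponent `τ` if `v` has exponent of
convergence at most `τ`; the functions `x ^ (v_n)`, `v_n ≥ 1`, are starshaped on `(1, ∞)`, of exponent `0`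
if the sums of `exp (-t v_n)` converge for `t > 0`; and the iterates of a map `g` with `g(x) > x` for
`x > α` and `g(x) / x` nondecreasing are starshaped on `(α, ∞)`, of exponent `0`. -/
theorem result (K : Type) [Field K] [NumberField K] (n₀ : ℕ)
    (ω : Module.Basis (Fin n₀) ℤ (𝓞 K)) (r κ s D : ℕ) (hD : 1 ≤ D) (hs : s ≤ r + κ)
    (hr : 2 * D * (r + κ - s) < r) :
    (∀ (m : ℕ) (d : Fin s → Fin r → ℕ) (e : Fin s → ℕ), (∀ j i, D ≤ d j i + 1) →
      (∀ j, D ≤ e j + 1) →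
      ∀ (f : ℕ → ℝ → ℝ) (α τ θ : ℝ), Starshaped α f → 0 ≤ τ → ExpLe α f τ → θ < 1 →
      ∃ B : Set (Index n₀ m d e → ℝ),
        dimH B ≤ ENNReal.ofReal (((Fintype.card (Index n₀ m d e) : ℝ) -
          ((r : ℝ) / 2 - D * ((r : ℝ) + κ - s)) + τ) / (1 - θ)) ∧
        ((Fintype.card (Index n₀ m d e) : ℝ) * θ + τ < (r : ℝ) / 2 - D * ((r : ℝ) + κ - s) →
          volume B = 0) ∧
        ∀ u : Index n₀ m d e → ℝ, α < ‖u‖ → u ∉ B →
          ∀ (q : ℕ) (a b : Fin r → ℤ)
            (Φ : Fin q → MvPolynomial ((Fin r × Fin 3) ⊕ Fin (m + 1)) (𝓞 K)), Suitable κ D a b Φ →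
            ∀ C : ℝ, ∃ n₁ : ℕ, ∀ n : ℕ, n₁ ≤ n → ∀ c : Coeffs m d e → 𝓞 K,
              Near ω (f n) (C * (f n ‖u‖) ^ θ) u c → Obstructed a b Φ D c) ∧
    -- the curves `y² = x³ + a x` and `y² = x³ + b`
    (∀ a b : ℤ, a * b = 0 → (a ≠ 0 ∨ b ≠ 0) → Supersingular a b) ∧
    -- `𝒯 = A × ℙ^κ`, and `𝒯 = A × Y` for a hypersurface `Y : f = 0` in `ℙ^(κ+1)` over `K`
    (∀ (a b : Fin r → ℤ), (∀ i, Supersingular (a i) (b i)) →
      Suitable (K := K) (m := κ) κ D a b (fun l : Fin 0 => l.elim0) ∧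
      ∀ (g : ℕ) (f : MvPolynomial (Fin (κ + 2)) (𝓞 K)), f.IsHomogeneous g → f ≠ 0 →
        Suitable (K := K) (m := κ + 1) κ D a b (fun _ : Fin 1 => rename Sum.inr f)) ∧
    -- examples of starshaped functions
    (∀ (v : ℕ → ℝ) (τ : ℝ), (∀ n, 0 < v n) → (∀ t : ℝ, τ < t → Summable (fun n : ℕ => (v n) ^ (-t))) →
      Starshaped 0 (fun n x => v n * x) ∧ ExpLe 0 (fun n x => v n * x) τ) ∧
    (∀ v : ℕ → ℝ, (∀ n, 1 ≤ v n) → (∀ t : ℝ, 0 < t → Summable fun n : ℕ => Real.exp (-(t * v n))) →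
      Starshaped 1 (fun n x => x ^ (v n)) ∧ ExpLe 1 (fun n x => x ^ (v n)) 0) ∧
    (∀ (a : ℝ) (g : ℝ → ℝ), 0 ≤ a → (∀ x y : ℝ, a < x → x ≤ y → g x / x ≤ g y / y) →
      (∀ x : ℝ, a < x → x < g x) →
      Starshaped a (fun n x => g^[n] x) ∧ ExpLe a (fun n x => g^[n] x) 0) :=
  ⟨fun m d e hd he f α τ θ hf hτ hv hθ => near ω κ D hD hs hr m d e hd he f α τ θ hf hτ hv hθ,
    supersingular_of, fun a b hE => ⟨suitable_univ D κ a b hE,
      fun g f hf hf0 => suitable_hyp D κ a b hE g f hf hf0⟩,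
    Pool.Agent.R482.ST.ex_mul, Pool.Agent.R482.ST.ex_pow, Pool.Agent.R482.ST.ex_orbit⟩

end Pool.Agent.Results.MP_308fa9_nt.SelmerSetsNearRealMembers
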